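import Mathlib
import Pool.Agent.Lib.helper11.IoD

namespace Pool.Agent.Results.MP_7a8bd8_nt.Dim

open Matrix MeasureTheory Set Metric Filter Topology

def IsLiouvilleMatrix {m n : ℕ} (A : Fin m → Fin n → ℝ) : Prop :=
  (∀ (q : Fin n → ℤ) (p : Fin m → ℤ), ¬ (q = 0 ∧ p = 0) →
    Matrix.of A *ᵥ (fun i => (q i : ℝ)) ≠ fun i => (p i : ℝ)) ∧
  ∀ N : ℝ, 0 < N → ∃ (p : Fin m → ℤ) (q : Fin n → ℤ), 1 < ‖fun i => (q i : ℝ)‖ ∧
    ‖Matrix.of A *ᵥ (fun i => (q i : ℝ)) - fun i => (p i : ℝ)‖ < ‖fun i => (q i : ℝ)‖ ^ (-N)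

lemma one_dim (m : ℕ) : dimH {A : Fin m → Fin 1 → ℝ | IsLiouvilleMatrix A} = 0 := by
  have key : ∀ R : ℕ, dimH {A : Fin m → Fin 1 → ℝ | IsLiouvilleMatrix A ∧ ‖A‖ ≤ R} = 0 := by
    intro R
    refine le_antisymm (ENNReal.le_of_forall_pos_le_add fun d hd _ => ?_) zero_le
    rw [zero_add]
    apply dimH_le_of_hausdorffMeasure_ne_top
    have hd' : (0 : ℝ) < d := hd
    let box : ℕ → Finset (Fin m → ℤ) := fun k =>
      Fintype.piFinset fun _ => Finset.Icc (-((R + 1) * (k + 2) : ℕ) : ℤ) ((R + 1) * (k + 2) : ℕ)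
    let c : ℕ → ℝ := fun k => (3 * (R + 1)) ^ m * 2 ^ (d : ℝ) * (1 / ((k : ℝ) + 2) ^ 2)
    have hs : Summable c := by
      apply Summable.mul_left
      have := (Real.summable_one_div_nat_add_rpow 2 2).2 (by norm_num)
      refine this.congr fun H => ?_
      rw [abs_of_nonneg (by positivity)]
      norm_cast
    have hdi : ∀ (z : Fin m → Fin 1 → ℝ) (r : ℝ), ediam (ball z r) ≤ ENNReal.ofReal (2 * r) := by
      intro z r
      refine ediam_le_of_forall_dist_le fun x hx y hy => ?_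
      rw [mem_ball] at hx hy
      linarith [dist_triangle_right x y z]
    have h1 := Measure.hausdorffMeasure_le_liminf_tsum (d : ℝ)
      {A : Fin m → Fin 1 → ℝ | IsLiouvilleMatrix A ∧ ‖A‖ ≤ R} (l := atTop)
      (ι := fun _ : ℕ => Σ k : ℕ, box k) (fun N => ENNReal.ofReal (2 * (1 / 2) ^ N)) (by
        rw [← ENNReal.ofReal_zero]
        apply ENNReal.tendsto_ofReal
        simpa using (tendsto_pow_atTop_nhds_zero_of_lt_one (r := (1 / 2 : ℝ)) (by norm_num)
          (by norm_num)).const_mul 2)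
      (fun N z => ball (fun i _ => (z.2.1 i : ℝ) / (z.1 + 2)) ((1 / ((z.1 : ℝ) + 2)) ^ N))
      (Eventually.of_forall fun N z => (hdi _ _).trans (ENNReal.ofReal_le_ofReal (by
        have : (0 : ℝ) ≤ z.1 := Nat.cast_nonneg _
        gcongr
        linarith)))
      ((eventually_gt_atTop 0).mono fun N hN A hA => by
        obtain ⟨p, q, h1, h2⟩ := hA.1.2 N (by exact_mod_cast hN)
        have e : ‖fun i => (q i : ℝ)‖ = |(q 0 : ℝ)| := by
          rw [Pi.norm_def]; simp
        rw [e] at h1 h2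
        have h3 : 1 < |q 0| := by exact_mod_cast h1
        obtain ⟨k, hk⟩ : ∃ k : ℕ, |q 0| = k + 2 := ⟨(|q 0| - 2).toNat, by omega⟩
        have hk' : |(q 0 : ℝ)| = k + 2 := by exact_mod_cast hk
        rw [hk', Real.rpow_neg (by positivity), Real.rpow_natCast, ← inv_pow, ← one_div] at h2
        have k0 : (0 : ℝ) ≤ k := Nat.cast_nonneg _
        have h4 : ∀ i, |A i 0 * (k + 2) - (p i * (q 0).sign : ℤ)| < (1 / ((k : ℝ) + 2)) ^ N := by
          intro i
          have := (norm_le_pi_norm _ i).trans_lt h2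
          simp only [Pi.sub_apply, mulVec, dotProduct, Fin.sum_univ_one, of_apply,
            Real.norm_eq_abs] at this
          refine lt_of_eq_of_lt ?_ this
          rw [← hk']
          rcases lt_trichotomy (q 0) 0 with h | h | h
          · have h' : (q 0 : ℝ) < 0 := by exact_mod_cast h
            rw [Int.sign_eq_neg_one_of_neg h, abs_of_neg h', ← abs_neg]
            congr 1; push_cast; ring
          · rw [h] at h3; simp at h3
          · have h' : (0 : ℝ) < q 0 := by exact_mod_cast h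
            rw [Int.sign_eq_one_of_pos h, abs_of_pos h']
            simp
        have h5 : (1 / ((k : ℝ) + 2)) ^ N ≤ 1 :=
          pow_le_one₀ (by positivity) (by rw [div_le_one (by positivity)]; linarith)
        refine mem_iUnion.2 ⟨⟨k, fun i => p i * (q 0).sign, ?_⟩, ?_⟩
        · simp only [box, Fintype.mem_piFinset, Finset.mem_Icc, ← abs_le]
          intro i
          have a1 : |A i 0| ≤ R :=
            ((norm_le_pi_norm (A i) 0).trans (norm_le_pi_norm A i)).trans hA.2
          have a2 := (h4 i).trans_le h5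
          have : |((p i * (q 0).sign : ℤ) : ℝ)| ≤ (R + 1) * (k + 2) := by
            rw [abs_le] at a1 ⊢
            rw [abs_lt] at a2
            constructor <;> nlinarith
          exact_mod_cast this
        · rw [mem_ball, dist_pi_lt_iff (by positivity)]
          intro i
          rw [dist_pi_lt_iff (by positivity)]
          intro j
          rw [Subsingleton.elim j 0, Real.dist_eq]
          refine lt_of_le_of_lt ?_ (h4 i)
          rw [show A i 0 * (k + 2) - (p i * (q 0).sign : ℤ) =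
            (A i 0 - (p i * (q 0).sign : ℤ) / (k + 2)) * (k + 2) by field_simp, abs_mul,
            abs_of_pos (show (0 : ℝ) < k + 2 by positivity)]
          nlinarith [abs_nonneg (A i 0 - (p i * (q 0).sign : ℤ) / (k + 2))])
    refine ne_top_of_le_ne_top hs.tsum_ofReal_ne_top (h1.trans ?_)
    refine liminf_le_of_frequently_le' (Eventually.frequently ?_)
    filter_upwards [eventually_ge_atTop ⌈(m + 2 : ℝ) / d⌉₊] with N hN
    rw [ENNReal.tsum_sigma']
    refine ENNReal.tsum_le_tsum fun k => ?_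
    have k0 : (0 : ℝ) ≤ k := Nat.cast_nonneg _
    have h2 : (2 * (1 / ((k : ℝ) + 2)) ^ N) ^ (d : ℝ) ≤ 2 ^ (d : ℝ) * (1 / ((k : ℝ) + 2)) ^ (m + 2) := by
      rw [Real.mul_rpow (by positivity) (by positivity), ← Real.rpow_natCast,
        ← Real.rpow_mul (by positivity), ← Real.rpow_natCast]
      refine mul_le_mul_of_nonneg_left (Real.rpow_le_rpow_of_exponent_ge (by positivity)
        (by rw [div_le_one (by positivity)]; linarith) ?_) (by positivity)
      have := (div_le_iff₀ hd').1 (Nat.ceil_le.1 hN)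
      push_cast; linarith
    refine (ENNReal.tsum_le_tsum fun z => (ENNReal.rpow_le_rpow (hdi _ _) hd'.le).trans
      ((ENNReal.ofReal_rpow_of_nonneg (by positivity) hd'.le).le.trans
        (ENNReal.ofReal_le_ofReal h2))).trans ?_
    rw [tsum_fintype, Finset.sum_const, nsmul_eq_mul, Finset.card_univ, Fintype.card_coe]
    have hc : (box k).card = (2 * ((R + 1) * (k + 2)) + 1) ^ m := by
      simp only [box, Fintype.card_piFinset, Int.card_Icc, Finset.prod_const, Finset.card_univ,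
        Fintype.card_fin]
      congr 1; omega
    rw [hc, ← ENNReal.ofReal_natCast, ← ENNReal.ofReal_mul (by positivity)]
    apply ENNReal.ofReal_le_ofReal
    push_cast
    have h3 : (2 * (((R : ℝ) + 1) * (k + 2)) + 1) ^ m ≤ (3 * (R + 1) * (k + 2)) ^ m := by
      apply pow_le_pow_left₀ (by positivity)
      have : (0 : ℝ) ≤ R := Nat.cast_nonneg _
      nlinarith
    refine (mul_le_mul_of_nonneg_right h3 (by positivity)).trans (le_of_eq ?_)
    simp only [c, mul_pow, pow_add, one_div, inv_pow]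
    field_simp
  have : {A : Fin m → Fin 1 → ℝ | IsLiouvilleMatrix A} =
      ⋃ R : ℕ, {A : Fin m → Fin 1 → ℝ | IsLiouvilleMatrix A ∧ ‖A‖ ≤ R} := by
    ext A
    simp only [mem_ofPred_eq, mem_iUnion, exists_and_left, iff_self_and]
    exact fun _ => exists_nat_ge _
  rw [this, dimH_iUnion]
  simp [key]

lemma ratcol {m n : ℕ} (A : Fin m → Fin n → ℝ) (j : Fin n) (r : Fin m → ℚ)
    (h : ∀ i, A i j = r i) : ∃ (p : Fin m → ℤ) (q : Fin n → ℤ), 1 < ‖fun i => (q i : ℝ)‖ ∧
      Matrix.of A *ᵥ (fun i => (q i : ℝ)) = fun i => (p i : ℝ) := by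
  obtain ⟨b, hb⟩ := IsLocalization.exist_integer_multiples_of_finite (nonZeroDivisors ℤ) r
  choose p hp using hb
  refine ⟨fun i => 2 * p i, Pi.single j (2 * b), ?_, ?_⟩
  · refine lt_of_lt_of_le ?_ (norm_le_pi_norm _ j)
    have : (1 : ℝ) ≤ |((b : ℤ) : ℝ)| := by
      exact_mod_cast Int.one_le_abs (nonZeroDivisors.coe_ne_zero b)
    simp
    linarith
  · funext i
    have := congrArg (fun x : ℚ => (x : ℝ)) (hp i)
    simp at this
    simp [mulVec, dotProduct, Pi.single_apply, h, this]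
    ring

lemma two_dim (m n : ℕ) (U : Set (Fin (m + 1) → Fin (n + 2) → ℝ)) (hU : IsOpen U)
    (hne : U.Nonempty) (F : ℕ → (Fin (m + 1) → Fin (n + 2) → ℝ) → Fin (m + 1) → Fin (n + 2) → ℝ)
    (hc : ∀ k, ContinuousOn (F k) U) (hi : ∀ k, InjOn (F k) U) :
    0 < dimH {A | A ∈ U ∧ ∀ k, IsLiouvilleMatrix (F k A)} := by
  classical
  by_contra h0
  set E := {A | A ∈ U ∧ ∀ k, IsLiouvilleMatrix (F k A)} with hE
  have hφ : LipschitzWith 1 fun A : Fin (m + 1) → Fin (n + 2) → ℝ => A 0 0 := by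
    refine LipschitzWith.of_dist_le_mul fun A B => ?_
    simpa using (dist_le_pi_dist (A 0) (B 0) 0).trans (dist_le_pi_dist A B 0)
  have hv : volume ((fun A : Fin (m + 1) → Fin (n + 2) → ℝ => A 0 0) '' E) = 0 := by
    rw [← hausdorffMeasure_real]
    apply hausdorffMeasure_of_dimH_lt (d := 1)
    exact (hφ.dimH_image_le E).trans_lt ((not_lt.1 h0).trans_lt (by norm_num))
  let ψ : ℕ → (Fin (m + 1) → Fin (n + 2) → ℝ) → ℝ := fun k y => Function.invFunOn (F k) U y 0 0
  have hψ : ∀ k, ∀ x ∈ U, ψ k (F k x) = x 0 0 := fun k x hx => by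
    simp only [ψ, (hi k).leftInvOn_invFunOn hx]
  have hop : ∀ k V, IsOpen V → V ⊆ U → IsOpen (F k '' V) := fun k V h1 h2 =>
    Pool.Agent.Lib.helper11.IoD.iod h1 ((hc k).mono h2) ((hi k).mono h2)
  have hψc : ∀ k, ContinuousOn (ψ k) (F k '' U) := by
    intro k
    rw [_root_.continuousOn_iff']
    intro W hW
    refine ⟨_, hop k (U ∩ (fun A => A 0 0) ⁻¹' W) (hU.inter (hW.preimage hφ.continuous))
      inter_subset_left, ?_⟩
    ext y
    constructor
    · rintro ⟨h1, x, hx, rfl⟩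
      exact ⟨⟨x, ⟨hx, by simpa [hψ k x hx] using h1⟩, rfl⟩, x, hx, rfl⟩
    · rintro ⟨⟨x, hx, rfl⟩, h2⟩
      exact ⟨by simpa [hψ k x hx.1] using hx.2, h2⟩
  let Z : ℕ ⊕ ((Fin (m + 1) → ℤ) × (Fin (n + 2) → ℤ)) → Set (Fin (m + 1) → Fin (n + 2) → ℝ) :=
    Sum.elim (fun N => ⋂ z : (Fin (m + 1) → ℤ) × (Fin (n + 2) → ℤ),
      {A | 1 < ‖fun i => (z.2 i : ℝ)‖ → ‖fun i => (z.2 i : ℝ)‖ ^ (-N : ℝ) ≤
        ‖Matrix.of A *ᵥ (fun i => (z.2 i : ℝ)) - fun i => (z.1 i : ℝ)‖})
      (fun z => {A | z.2 ≠ 0 ∧ ∑ j, A 0 j * z.2 j = z.1 0})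
  have hZ : ∀ z, IsClosed (Z z) := by
    rintro (N | z)
    · refine isClosed_iInter fun z => ?_
      by_cases h : 1 < ‖fun i => (z.2 i : ℝ)‖
      · simp only [h, forall_const]
        refine isClosed_le continuous_const (Continuous.norm (Continuous.sub ?_ continuous_const))
        unfold mulVec dotProduct
        simp only [of_apply]
        fun_prop
      · simp [h]
    · exact IsClosed.inter isClosed_const
        (isClosed_eq (f := fun A : Fin (m + 1) → Fin (n + 2) → ℝ => ∑ j, A 0 j * z.2 j)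
          (by fun_prop) continuous_const)
  have hL : ∀ A, ¬ IsLiouvilleMatrix A → ∃ z, A ∈ Z z := by
    intro A hA
    by_contra hn
    push Not at hn
    refine hA ⟨fun q p hqp h1 => ?_, fun N _ => ?_⟩
    · by_cases hq : q = 0
      · refine hqp ⟨hq, funext fun i => ?_⟩
        have := congrFun h1 i
        simp only [hq, Pi.zero_apply, Int.cast_zero, Matrix.mulVec, dotProduct, mul_zero,
          Finset.sum_const_zero] at this
        exact_mod_cast this.symm
      · exact hn (.inr (p, q)) ⟨hq, congrFun h1 0⟩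
    · have := hn (.inl ⌈N⌉₊)
      simp only [Z, Sum.elim_inl, mem_iInter, mem_ofPred_eq, not_forall, not_le] at this
      obtain ⟨z, h1, h2⟩ := this
      exact ⟨z.1, z.2, h1, h2.trans_le
        (Real.rpow_le_rpow_of_exponent_le h1.le (neg_le_neg (Nat.le_ceil N)))⟩
  let D : ℕ × ℚ → Set (Fin (m + 1) → Fin (n + 2) → ℝ) := fun i =>
    ball (TopologicalSpace.denseSeq _ i.1) i.2
  let S : ℕ × (ℕ ⊕ ((Fin (m + 1) → ℤ) × (Fin (n + 2) → ℤ))) × (ℕ × ℚ) → Set ℝ := fun i =>
    {c | D i.2.2 ⊆ F i.1 '' U ∧ (∃ y ∈ D i.2.2, ψ i.1 y = c) ∧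
      ∀ y ∈ D i.2.2, ψ i.1 y = c → y ∈ Z i.2.1}
  have hcov : (fun A => A 0 0) '' U ⊆ (fun A => A 0 0) '' E ∪ ⋃ i, S i := by
    rintro c ⟨a, ha, hac⟩
    by_cases hcE : c ∈ (fun A => A 0 0) '' E
    · exact Or.inl hcE
    right
    have hH : IsLocallyClosed (U ∩ {A | A 0 0 = c}) :=
      hU.isLocallyClosed.inter (isClosed_eq hφ.continuous continuous_const).isLocallyClosed
    have := hH.locallyCompactSpace
    have : Nonempty (U ∩ {A | A 0 0 = c} : Set _) := ⟨⟨a, ha, hac⟩⟩
    obtain ⟨⟨k, z⟩, x, hx⟩ := nonempty_interior_of_iUnion_of_closed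
      (f := fun i : ℕ × _ => {x : (U ∩ {A | A 0 0 = c} : Set _) | F i.1 x ∈ Z i.2})
      (fun i => (hZ i.2).preimage ((hc i.1).mono inter_subset_left).domRestrict) (by
        rw [eq_univ_iff_forall]
        rintro ⟨x, hx, hxc⟩
        have : ¬ ∀ k, IsLiouvilleMatrix (F k x) := fun h => hcE ⟨x, ⟨hx, h⟩, hxc⟩
        obtain ⟨k, hk⟩ := not_forall.1 this
        obtain ⟨z, hz⟩ := hL _ hk
        exact mem_iUnion.2 ⟨(k, z), hz⟩)
    obtain ⟨V, hV, hV'⟩ := isOpen_induced_iff.1 (isOpen_interior (s :=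
      {x : (U ∩ {A | A 0 0 = c} : Set _) | F k x ∈ Z z}))
    have hxV : x.1 ∈ V := by rw [← hV'] at hx; exact hx
    obtain ⟨ε, hε, hb⟩ := Metric.isOpen_iff.1 (hop k (U ∩ V) (hU.inter hV) inter_subset_left) _
      ⟨x, ⟨x.2.1, hxV⟩, rfl⟩
    obtain ⟨ρ, hρ0, hρ⟩ := exists_rat_btwn (half_pos hε)
    obtain ⟨i, hi'⟩ := (TopologicalSpace.denseRange_denseSeq _).exists_dist_lt (F k x) hρ0
    have hD : D (i, ρ) ⊆ F k '' (U ∩ V) := fun y hy => hb (by
      simp only [D, mem_ball] at hy ⊢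
      linarith [dist_triangle_right y (F k x) (TopologicalSpace.denseSeq _ i)])
    refine mem_iUnion.2 ⟨(k, z, i, ρ), hD.trans (image_mono inter_subset_left),
      ⟨F k x, hi', (hψ k x x.2.1).trans x.2.2⟩, fun y hy hyc => ?_⟩
    obtain ⟨v, hv, rfl⟩ := hD hy
    have : (⟨v, hv.1, (hψ k v hv.1).symm.trans hyc⟩ : (U ∩ {A | A 0 0 = c} : Set _)) ∈
        interior {x : (U ∩ {A | A 0 0 = c} : Set _) | F k x ∈ Z z} := by
      rw [← hV']; exact hv.2
    have h9 := interior_subset this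
    exact h9
  have hfin : ∀ i, (S i).Finite := by
    rintro ⟨k, N | z, i⟩
    · convert finite_empty
      rw [eq_empty_iff_forall_notMem]
      rintro c ⟨h1, ⟨y, hy, hyc⟩, h3⟩
      obtain ⟨x, hx, rfl⟩ := h1 hy
      rw [hψ k x hx] at hyc
      have hψD := (hψc k).mono h1
      have hl : Tendsto (fun t : ℝ => x + fun _ _ => t) (𝓝 0) (𝓝 x) := by
        apply Continuous.tendsto' (by fun_prop)
        ext; simp
      have hev : ∀ᶠ t : ℝ in 𝓝 0, (x + fun _ _ => t) ∈ U ∧ F k (x + fun _ _ => t) ∈ D i :=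
        (hl.eventually (hU.mem_nhds hx)).and ((((hc k).continuousAt (hU.mem_nhds hx)).tendsto.comp
          hl).eventually (isOpen_ball.mem_nhds hy))
      have hrat : ∀ W : Set ℝ, IsOpen W → (∃ᶠ t in 𝓝 0, c + t ∈ W) →
          ∃ r : Fin (m + 1) → Fin (n + 2) → ℚ, (fun a b => (r a b : ℝ)) ∈ D i ∧
            ψ k (fun a b => (r a b : ℝ)) ∈ W := by
        intro W hW hf
        obtain ⟨t, ht, h4, h5⟩ := (hf.and_eventually hev).exists
        have hd : DenseRange fun (r : Fin (m + 1) → Fin (n + 2) → ℚ) a b => (r a b : ℝ) :=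
          DenseRange.piMap fun _ => DenseRange.piMap fun _ => Rat.denseRange_cast
        exact hd.exists_mem_open (hψD.isOpen_inter_preimage isOpen_ball hW)
          ⟨_, h5, by rw [mem_preimage, hψ k _ h4]; simpa [hyc] using ht⟩
      obtain ⟨a, ha, ha'⟩ := hrat (Ioi c) isOpen_Ioi
        ((frequently_gt_nhds 0).mono fun t ht => by simpa using ht)
      obtain ⟨b, hb, hb'⟩ := hrat (Iio c) isOpen_Iio
        ((frequently_lt_nhds 0).mono fun t ht => by simpa using ht)
      have hseg : ∀ (u v : Fin (m + 1) → Fin (n + 2) → ℚ) (j : Fin (n + 2)),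
          (fun a b => (u a b : ℝ)) ∈ D i → (fun a b => (v a b : ℝ)) ∈ D i → (∀ l, u l j = v l j) →
          ψ k (fun a b => (u a b : ℝ)) ≤ c → c ≤ ψ k (fun a b => (v a b : ℝ)) → False := by
        intro u v j hu hv huv h4 h5
        have hsub := (convex_ball _ _).segment_subset hu hv
        obtain ⟨y, hy, hyc⟩ := (convex_segment _ _).isPreconnected.intermediate_value
          (left_mem_segment ℝ _ _) (right_mem_segment ℝ _ _) (hψD.mono hsub) ⟨h4, h5⟩
        have h6 := h3 y (hsub hy) hyc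
        obtain ⟨s, t, -, -, hst, rfl⟩ := hy
        obtain ⟨p, q, h7, h8⟩ := ratcol (s • (fun a b => (u a b : ℝ)) + t • fun a b => (v a b : ℝ))
          j (fun l => u l j) (fun l => by
            simp only [Pi.add_apply, Pi.smul_apply, smul_eq_mul, ← huv]
            rw [← add_mul, hst, one_mul])
        have h9 := mem_iInter.1 h6 (p, q) h7
        rw [h8, sub_self, norm_zero] at h9
        exact absurd h9 (not_le.2 (Real.rpow_pos_of_pos (by linarith) _))
      have hM : (fun l j => ((if j = 0 then a l j else b l j : ℚ) : ℝ)) ∈ D i := by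
        have hρ : (0 : ℝ) < i.2 := pos_of_mem_ball ha
        simp only [D, mem_ball, dist_pi_lt_iff hρ] at ha hb ⊢
        intro l j
        split_ifs
        · exact ha l j
        · exact hb l j
      rcases le_total (ψ k fun l j => ((if j = 0 then a l j else b l j : ℚ) : ℝ)) c with h | h
      · exact hseg _ a 0 hM ha (by simp) h ha'.le
      · exact hseg b _ 1 hb hM (by simp) hb'.le h
    · by_contra hinf
      obtain ⟨t, ht, h3⟩ := Set.Infinite.exists_subset_card_eq hinf 3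
      let e := t.orderEmbOfFin h3
      have he : ∀ j, e j ∈ S (k, .inr z, i) := fun j => ht (t.orderEmbOfFin_mem h3 j)
      have hψD := (hψc k).mono (he 0).1
      have hside : ∀ j, ∀ W : Set ℝ, IsOpen W → e j ∈ W →
          ∃ u ∈ D i ∩ {A | (z.1 0 : ℝ) < ∑ j, A 0 j * z.2 j}, ψ k u ∈ W := by
        intro j W hW hj
        obtain ⟨-, ⟨y, hy, hyc⟩, h4⟩ := he j
        obtain ⟨h5, h6⟩ := h4 y hy hyc
        have hl : Tendsto (fun t : ℝ => y + fun _ j => t * z.2 j) (𝓝 0) (𝓝 y) := by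
          apply Continuous.tendsto' (by fun_prop)
          ext; simp
        obtain ⟨t, ht0, h7⟩ := ((frequently_gt_nhds 0).and_eventually (hl.eventually
          ((hψD.isOpen_inter_preimage isOpen_ball hW).mem_nhds ⟨hy, by rwa [mem_preimage, hyc]⟩))).exists
        refine ⟨_, ⟨h7.1, ?_⟩, h7.2⟩
        simp only [mem_ofPred_eq, Pi.add_apply, add_mul, Finset.sum_add_distrib, h6,
          lt_add_iff_pos_right, mul_assoc, ← Finset.mul_sum]
        obtain ⟨l, hl⟩ := Function.ne_iff.1 h5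
        refine mul_pos ht0 (Finset.sum_pos' (fun _ _ => mul_self_nonneg _)
          ⟨l, Finset.mem_univ _, mul_self_pos.2 (by exact_mod_cast hl)⟩)
      obtain ⟨u, hu, hu'⟩ := hside 0 (Iio (e 1)) isOpen_Iio (e.strictMono (by decide))
      obtain ⟨v, hv, hv'⟩ := hside 2 (Ioi (e 1)) isOpen_Ioi (e.strictMono (by decide))
      have hcv : Convex ℝ (D i ∩ {A | (z.1 0 : ℝ) < ∑ j, A 0 j * z.2 j}) :=
        (convex_ball _ _).inter (convex_halfSpace_gt
          (f := fun A : Fin (m + 1) → Fin (n + 2) → ℝ => ∑ j, A 0 j * z.2 j)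
          ⟨fun x y => by simp [add_mul, Finset.sum_add_distrib],
           fun c x => by simp [mul_assoc, Finset.mul_sum]⟩ _)
      obtain ⟨y, hy, hyc⟩ := hcv.isPreconnected.intermediate_value hu hv
        (hψD.mono inter_subset_left) ⟨hu'.le, hv'.le⟩
      exact absurd ((he 1).2.2 y hy.1 hyc).2 (ne_of_gt hy.2)
  have hopen : IsOpen ((fun A : Fin (m + 1) → Fin (n + 2) → ℝ => A 0 0) '' U) :=
    ((isOpenMap_eval (0 : Fin (n + 2))).comp (isOpenMap_eval (0 : Fin (m + 1)))) U hU
  exact (hopen.measure_pos volume (hne.image _)).ne' (measure_mono_null hcov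
    (measure_union_null hv (measure_iUnion_null fun i => (hfin i).measure_zero _)))

theorem result (m n : ℕ) (hm : 1 ≤ m) (hn : 1 ≤ n) :
    (∀ U : Set (Fin m → Fin n → ℝ), IsOpen U → U.Nonempty →
      ∀ f : ℕ → (Fin m → Fin n → ℝ) → Fin m → Fin n → ℝ,
        (∀ k, ContinuousOn (f k) U) → (∀ k, InjOn (f k) U) →
        0 < dimH {A | A ∈ U ∧ IsLiouvilleMatrix A ∧ ∀ k, IsLiouvilleMatrix (f k A)}) ↔ 2 ≤ n := by
  constructor
  · intro h
    by_contra hc
    obtain rfl : n = 1 := by omega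
    have := h univ isOpen_univ univ_nonempty (fun _ => id) (fun _ => continuousOn_id)
      (fun _ => injOn_id _)
    simp [one_dim] at this
  · intro h U hU hne f hc hi
    obtain ⟨m, rfl⟩ := Nat.exists_eq_add_of_le' hm
    obtain ⟨n, rfl⟩ := Nat.exists_eq_add_of_le' h
    refine (two_dim m n U hU hne (fun k => Nat.casesOn k id f)
      (fun k => by cases k; exacts [continuousOn_id, hc _])
      (fun k => by cases k; exacts [injOn_id _, hi _])).trans_le (dimH_mono ?_)
    exact fun A hA => ⟨hA.1, hA.2 0, fun k => hA.2 (k + 1)⟩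

end Pool.Agent.Results.MP_7a8bd8_nt.Dim
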